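import Pool.Agent.Helper26.MCE.GoalsB

/-!
# Project MCE, packet MT: many tuples in different classes
-/

set_option autoImplicit false

namespace Pool.Agent.Helper51.MCE

open Finset Pool.Agent.Helper26.MCE

open Classical in
/-- tuples with pairwise different classes -/
noncomputable def TP {V : Type} [Fintype V] (X : Finset V) (cl : V → V) (k : ℕ) :
    Finset (Fin k → V) :=
  (Fintype.piFinset fun _ : Fin k => X).filter fun v => ∀ a a', a ≠ a' → cl (v a) ≠ cl (v a')

open Classical in
theorem tp_succ {V : Type} [Fintype V] (X : Finset V) (cl : V → V) (k : ℕ) :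
    ∑ v ∈ TP X cl k, (X.filter fun x => ∀ a, cl x ≠ cl (v a)).card ≤ (TP X cl (k + 1)).card := by
  rw [← Finset.card_sigma]
  refine Finset.card_le_card_of_injOn
    (fun y : (_ : Fin k → V) × V => (Fin.cons y.2 y.1 : Fin (k + 1) → V)) ?_ ?_
  · rintro ⟨v, x⟩ h
    simp only [Finset.coe_sigma, Set.mem_sigma_iff, Finset.mem_coe, TP, Finset.mem_filter,
      Fintype.mem_piFinset] at h ⊢
    obtain ⟨⟨h1, h2⟩, h3, h4⟩ := h
    refine ⟨?_, ?_⟩
    · intro a
      refine Fin.cases ?_ (fun i => ?_) a
      · simpa using h3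
      · simpa using h1 i
    · intro a a'
      refine Fin.cases ?_ (fun i => ?_) a
      · refine Fin.cases ?_ (fun i' => ?_) a'
        · intro h; exact absurd rfl h
        · intro _
          simpa using h4 i'
      · refine Fin.cases ?_ (fun i' => ?_) a'
        · intro _
          simpa using (h4 i).symm
        · intro h
          simpa using h2 i i' (fun e => h (by rw [e]))
  · rintro ⟨v, x⟩ _ ⟨v', x'⟩ _ h
    have h' : (Fin.cons x v : Fin (k + 1) → V) = Fin.cons x' v' := h
    obtain ⟨e1, e2⟩ := Fin.cons_injective2 h'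
    rw [e1, e2]

open Classical in
theorem fib_card {V : Type} [Fintype V] (X : Finset V) (cl : V → V) (N m k : ℕ) (hk : k < m)
    (h1 : ∀ v ∈ X, 8 * m * (univ.filter fun v' => cl v' = cl v).card ≤ N)
    (h2 : N < 4 * X.card) (v : Fin k → V) (hv : v ∈ TP X cl k) :
    (N : ℝ) / 8 ≤ ((X.filter fun x => ∀ a, cl x ≠ cl (v a)).card : ℝ) := by
  have hm : 0 < m := lt_of_le_of_lt (Nat.zero_le k) hk
  have hX : ∀ a, v a ∈ X := by
    have h := (Finset.mem_filter.1 hv).1
    exact fun a => Fintype.mem_piFinset.1 h a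
  have h3 : X ⊆ (X.filter fun x => ∀ a, cl x ≠ cl (v a)) ∪
      (univ : Finset (Fin k)).biUnion fun a => univ.filter fun v' => cl v' = cl (v a) := by
    intro x hx
    rw [Finset.mem_union]
    by_cases h : ∀ a, cl x ≠ cl (v a)
    · left
      exact Finset.mem_filter.2 ⟨hx, h⟩
    · right
      push Not at h
      obtain ⟨a, ha⟩ := h
      exact Finset.mem_biUnion.2 ⟨a, Finset.mem_univ _, Finset.mem_filter.2 ⟨Finset.mem_univ _, ha⟩⟩
  have h4 := (Finset.card_le_card h3).trans (Finset.card_union_le _ _)
  have h5 : 8 * m * ((univ : Finset (Fin k)).biUnion fun a =>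
      univ.filter fun v' => cl v' = cl (v a)).card ≤ m * N := by
    have h6 : ((univ : Finset (Fin k)).biUnion fun a =>
        univ.filter fun v' => cl v' = cl (v a)).card ≤
        ∑ a : Fin k, (univ.filter fun v' => cl v' = cl (v a)).card := Finset.card_biUnion_le
    calc _ ≤ 8 * m * ∑ a : Fin k, (univ.filter fun v' => cl v' = cl (v a)).card :=
          Nat.mul_le_mul_left _ h6
      _ = ∑ a : Fin k, 8 * m * (univ.filter fun v' => cl v' = cl (v a)).card := by
          rw [Finset.mul_sum]
      _ ≤ ∑ a : Fin k, N := Finset.sum_le_sum fun a _ => h1 _ (hX a)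
      _ = k * N := by simp
      _ ≤ m * N := Nat.mul_le_mul_right _ hk.le
  have h7 : 8 * ((univ : Finset (Fin k)).biUnion fun a =>
      univ.filter fun v' => cl v' = cl (v a)).card ≤ N := by
    have : m * (8 * ((univ : Finset (Fin k)).biUnion fun a =>
      univ.filter fun v' => cl v' = cl (v a)).card) ≤ m * N := by
      calc _ = 8 * m * ((univ : Finset (Fin k)).biUnion fun a =>
            univ.filter fun v' => cl v' = cl (v a)).card := by ring
        _ ≤ _ := h5
    exact Nat.le_of_mul_le_mul_left this hm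
  have h8 : N ≤ 8 * (X.filter fun x => ∀ a, cl x ≠ cl (v a)).card := by omega
  have h9 : (N : ℝ) ≤ 8 * ((X.filter fun x => ∀ a, cl x ≠ cl (v a)).card : ℝ) := by
    exact_mod_cast h8
  linarith

open Classical in
theorem goalMT : G_MT := by
  intro V _ X cl N m h1 h2
  have key : ∀ k ≤ m, ((N : ℝ) / 8) ^ k ≤ ((TP X cl k).card : ℝ) := by
    intro k
    induction k with
    | zero =>
      intro _
      have h : (TP X cl 0).card = 1 := by
        have : TP X cl 0 = univ := by
          ext v
          simp [TP]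
        rw [this]
        simp
      rw [h]
      simp
    | succ k ih =>
      intro hk
      have h3 := ih (by omega)
      have h4 : (∑ v ∈ TP X cl k, ((X.filter fun x => ∀ a, cl x ≠ cl (v a)).card : ℝ)) ≤
          ((TP X cl (k + 1)).card : ℝ) := by
        exact_mod_cast tp_succ X cl k
      have h5 : ((TP X cl k).card : ℝ) * ((N : ℝ) / 8) ≤
          ∑ v ∈ TP X cl k, ((X.filter fun x => ∀ a, cl x ≠ cl (v a)).card : ℝ) := by
        rw [← nsmul_eq_mul]
        exact Finset.card_nsmul_le_sum _ _ _ fun v hv => fib_card X cl N m k (by omega) h1 h2 v hv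
      have h6 : (0 : ℝ) ≤ (N : ℝ) / 8 := by positivity
      calc ((N : ℝ) / 8) ^ (k + 1) = ((N : ℝ) / 8) ^ k * ((N : ℝ) / 8) := pow_succ _ _
        _ ≤ ((TP X cl k).card : ℝ) * ((N : ℝ) / 8) := by gcongr
        _ ≤ _ := h5.trans h4
  have := key m le_rfl
  exact this

end Pool.Agent.Helper51.MCE
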